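import Mathlib
import Pool.Agent.U398.MV.Stm

set_option autoImplicit false

namespace Pool.Agent.U114.MV.HI

open MeasureTheory Filter Topology Set Complex
open Pool.Agent.U398.MV

noncomputable section

/-- Gaussian window -/
def gg (x t : ℝ) : ℝ := Real.exp (-(x - t) ^ 2 / 2)

lemma gg_pos (x t : ℝ) : 0 < gg x t := Real.exp_pos _

lemma gg_mul (x y t : ℝ) :
    gg x t * gg y t = Real.exp (-(x - y) ^ 2 / 4) * Real.exp (-1 * (t + -((x + y) / 2)) ^ 2) := by
  unfold gg
  rw [← Real.exp_add, ← Real.exp_add]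
  congr 1
  ring

lemma int_gg (x y : ℝ) : Integrable (fun t => gg x t * gg y t) ∧
    ∫ t, gg x t * gg y t = Real.sqrt Real.pi * Real.exp (-(x - y) ^ 2 / 4) := by
  have h1 : Integrable (fun t : ℝ => Real.exp (-1 * t ^ 2)) :=
    integrable_exp_neg_mul_sq one_pos
  have h2 := h1.comp_add_right (-((x + y) / 2))
  have e : (fun t => gg x t * gg y t) = fun t =>
      Real.exp (-(x - y) ^ 2 / 4) * Real.exp (-1 * (t + -((x + y) / 2)) ^ 2) := by
    funext t
    exact gg_mul x y t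
  constructor
  · rw [e]
    exact h2.const_mul _
  · rw [e, integral_const_mul,
      MeasureTheory.integral_add_right_eq_self (fun t : ℝ => Real.exp (-1 * t ^ 2)),
      integral_gaussian]
    rw [div_one]
    ring

/-- integral in `t` of the points part -/
def AA {ι : Type} (S : Finset ι) (w x : ι → ℝ) (u : ℝ) : ℝ :=
  ∑ i ∈ S, ∑ j ∈ S, w i * w j * Real.cos (u * (x i - x j)) *
    (Real.sqrt Real.pi * Real.exp (-(x i - x j) ^ 2 / 4))

/-- points part -/
def V1 {ι : Type} (S : Finset ι) (w x : ι → ℝ) (u t : ℝ) : ℂ :=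
  ∑ i ∈ S, (w i : ℂ) * (cexp (I * u * x i) * cexp (-((x i : ℂ) - t) ^ 2 / 2))

lemma cexp_gg (x t : ℝ) : cexp (-((x : ℂ) - t) ^ 2 / 2) = (gg x t : ℂ) := by
  unfold gg
  push_cast
  rfl

lemma V1_re {ι : Type} (S : Finset ι) (w x : ι → ℝ) (u t : ℝ) :
    V1 S w x u t = ((∑ i ∈ S, w i * gg (x i) t * Real.cos (u * x i) : ℝ) : ℂ) +
      ((∑ i ∈ S, w i * gg (x i) t * Real.sin (u * x i) : ℝ) : ℂ) * I := by
  unfold V1
  rw [ofReal_sum, ofReal_sum, Finset.sum_mul, ← Finset.sum_add_distrib]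
  refine Finset.sum_congr rfl fun i _ => ?_
  rw [cexp_gg]
  have : I * (u : ℂ) * (x i : ℂ) = ((u * x i : ℝ) : ℂ) * I := by
    push_cast
    ring
  rw [this, Complex.exp_mul_I]
  push_cast
  ring

lemma V1_sq {ι : Type} (S : Finset ι) (w x : ι → ℝ) (u t : ℝ) :
    ‖V1 S w x u t‖ ^ 2 = ∑ i ∈ S, ∑ j ∈ S, w i * w j * Real.cos (u * (x i - x j)) *
      (gg (x i) t * gg (x j) t) := by
  rw [V1_re, ← Complex.normSq_eq_norm_sq, Complex.normSq_add_mul_I, sq, sq,
    Finset.sum_mul_sum, Finset.sum_mul_sum, ← Finset.sum_add_distrib]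
  refine Finset.sum_congr rfl fun i _ => ?_
  rw [← Finset.sum_add_distrib]
  refine Finset.sum_congr rfl fun j _ => ?_
  rw [show u * (x i - x j) = u * x i - u * x j by ring, Real.cos_sub]
  ring

lemma V1_int {ι : Type} (S : Finset ι) (w x : ι → ℝ) (u : ℝ) :
    Integrable (fun t : ℝ => ‖V1 S w x u t‖ ^ 2) ∧
      ∫ t : ℝ, ‖V1 S w x u t‖ ^ 2 = AA S w x u := by
  have e : (fun t : ℝ => ‖V1 S w x u t‖ ^ 2) = fun t => ∑ i ∈ S, ∑ j ∈ S,
      w i * w j * Real.cos (u * (x i - x j)) * (gg (x i) t * gg (x j) t) := by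
    funext t
    exact V1_sq S w x u t
  have hi : ∀ i j, Integrable (fun t =>
      w i * w j * Real.cos (u * (x i - x j)) * (gg (x i) t * gg (x j) t)) :=
    fun i j => (int_gg (x i) (x j)).1.const_mul _
  rw [e]
  constructor
  · exact integrable_finsetSum _ fun i _ => integrable_finsetSum _ fun j _ => hi i j
  · rw [integral_finsetSum _ fun i _ => integrable_finsetSum _ fun j _ => hi i j]
    unfold AA
    refine Finset.sum_congr rfl fun i _ => ?_
    rw [integral_finsetSum _ fun j _ => hi i j]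
    refine Finset.sum_congr rfl fun j _ => ?_
    rw [integral_const_mul, (int_gg (x i) (x j)).2]

lemma AA_nonneg {ι : Type} (S : Finset ι) (w x : ι → ℝ) (u : ℝ) : 0 ≤ AA S w x u := by
  rw [← (V1_int S w x u).2]
  exact integral_nonneg fun t => by positivity

lemma AA_cont {ι : Type} (S : Finset ι) (w x : ι → ℝ) : Continuous (AA S w x) := by
  unfold AA
  fun_prop

/-- Gaussian Fourier integral, real form -/
lemma gauss_cos (U y : ℝ) (hU : 0 < U) :
    Integrable (fun u : ℝ => Real.cos (u * y) * Real.exp (-(1 / U ^ 2) * u ^ 2)) ∧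
    ∫ u : ℝ, Real.cos (u * y) * Real.exp (-(1 / U ^ 2) * u ^ 2) =
      Real.sqrt Real.pi * U * Real.exp (-(U * y) ^ 2 / 4) := by
  have hb : 0 < 1 / U ^ 2 := by positivity
  have hbc : 0 < (((1 / U ^ 2 : ℝ) : ℂ)).re := by
    rw [ofReal_re]
    exact hb
  have hint : Integrable (fun u : ℝ => Real.exp (-(1 / U ^ 2) * u ^ 2)) :=
    integrable_exp_neg_mul_sq hb
  have hF := fourierIntegral_gaussian hbc (y : ℂ)
  have hintc : Integrable (fun u : ℝ => cexp (I * y * u) * cexp (-((1 / U ^ 2 : ℝ) : ℂ) * (u : ℂ) ^ 2)) := by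
    have h3 : Integrable (fun u : ℝ => cexp (-((1 / U ^ 2 : ℝ) : ℂ) * (u : ℂ) ^ 2)) := by
      have := hint.ofReal (𝕜 := ℂ)
      refine this.congr (Eventually.of_forall fun u => ?_)
      simp
    refine h3.bdd_mul (c := 1) (by fun_prop) (Eventually.of_forall fun u => ?_)
    rw [show I * (y : ℂ) * u = ((y * u : ℝ) : ℂ) * I by push_cast; ring,
      Complex.norm_exp_ofReal_mul_I]
  have hre : ∀ u : ℝ, (cexp (I * y * u) * cexp (-((1 / U ^ 2 : ℝ) : ℂ) * (u : ℂ) ^ 2)).re =
      Real.cos (u * y) * Real.exp (-(1 / U ^ 2) * u ^ 2) := by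
    intro u
    rw [show I * (y : ℂ) * u = ((u * y : ℝ) : ℂ) * I by push_cast; ring,
      show (-((1 / U ^ 2 : ℝ) : ℂ) * (u : ℂ) ^ 2) = ((-(1 / U ^ 2) * u ^ 2 : ℝ) : ℂ) by
        push_cast; ring, ← Complex.ofReal_exp, Complex.re_mul_ofReal,
      Complex.exp_ofReal_mul_I_re]
  constructor
  · have := hintc.re
    refine this.congr (Eventually.of_forall fun u => ?_)
    exact hre u
  · have h5 : ∫ u : ℝ, Real.cos (u * y) * Real.exp (-(1 / U ^ 2) * u ^ 2) =
        (∫ u : ℝ, cexp (I * y * u) * cexp (-((1 / U ^ 2 : ℝ) : ℂ) * (u : ℂ) ^ 2)).re := by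
      have := integral_re hintc
      rw [show (∫ u : ℝ, cexp (I * y * u) * cexp (-((1 / U ^ 2 : ℝ) : ℂ) * (u : ℂ) ^ 2)).re =
        RCLike.re (∫ u : ℝ, cexp (I * y * u) * cexp (-((1 / U ^ 2 : ℝ) : ℂ) * (u : ℂ) ^ 2)) from rfl,
        ← this]
      refine integral_congr_ae (Eventually.of_forall fun u => ?_)
      exact (hre u).symm
    rw [h5, hF]
    have h6 : ((Real.pi : ℂ) / ((1 / U ^ 2 : ℝ) : ℂ)) ^ (1 / 2 : ℂ) =
        ((Real.sqrt Real.pi * U : ℝ) : ℂ) := by
      rw [show (Real.pi : ℂ) / ((1 / U ^ 2 : ℝ) : ℂ) = ((Real.pi * U ^ 2 : ℝ) : ℂ) by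
        push_cast; field_simp]
      rw [show (1 / 2 : ℂ) = ((1 / 2 : ℝ) : ℂ) by push_cast; ring,
        ← Complex.ofReal_cpow (by positivity), ← Real.sqrt_eq_rpow,
        Real.sqrt_mul Real.pi_pos.le, Real.sqrt_sq hU.le]
    have h7 : cexp (-(y : ℂ) ^ 2 / (4 * ((1 / U ^ 2 : ℝ) : ℂ))) =
        ((Real.exp (-(U * y) ^ 2 / 4) : ℝ) : ℂ) := by
      rw [Complex.ofReal_exp]
      congr 1
      push_cast
      field_simp
    rw [h6, h7, ← Complex.ofReal_mul, Complex.ofReal_re]

/-- the Gaussian pair sum -/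
def GS {ι : Type} (S : Finset ι) (w x : ι → ℝ) (L : ℝ) : ℝ :=
  ∑ i ∈ S, ∑ j ∈ S, w i * w j * Real.exp (-(L * (x i - x j)) ^ 2 / 16)

lemma AA_gauss {ι : Type} (S : Finset ι) (w x : ι → ℝ) (U : ℝ) (hU : 0 < U) :
    Integrable (fun u : ℝ => AA S w x u * Real.exp (-(1 / U ^ 2) * u ^ 2)) ∧
    ∫ u : ℝ, AA S w x u * Real.exp (-(1 / U ^ 2) * u ^ 2) =
      ∑ i ∈ S, ∑ j ∈ S, w i * w j * (Real.sqrt Real.pi * Real.exp (-(x i - x j) ^ 2 / 4)) *
        (Real.sqrt Real.pi * U * Real.exp (-(U * (x i - x j)) ^ 2 / 4)) := by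
  have e : (fun u : ℝ => AA S w x u * Real.exp (-(1 / U ^ 2) * u ^ 2)) = fun u =>
      ∑ i ∈ S, ∑ j ∈ S, w i * w j * (Real.sqrt Real.pi * Real.exp (-(x i - x j) ^ 2 / 4)) *
        (Real.cos (u * (x i - x j)) * Real.exp (-(1 / U ^ 2) * u ^ 2)) := by
    funext u
    unfold AA
    rw [Finset.sum_mul]
    refine Finset.sum_congr rfl fun i _ => ?_
    rw [Finset.sum_mul]
    refine Finset.sum_congr rfl fun j _ => ?_
    ring
  have hi : ∀ i j, Integrable (fun u : ℝ =>
      w i * w j * (Real.sqrt Real.pi * Real.exp (-(x i - x j) ^ 2 / 4)) *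
        (Real.cos (u * (x i - x j)) * Real.exp (-(1 / U ^ 2) * u ^ 2))) :=
    fun i j => (gauss_cos U (x i - x j) hU).1.const_mul _
  rw [e]
  constructor
  · exact integrable_finsetSum _ fun i _ => integrable_finsetSum _ fun j _ => hi i j
  · rw [integral_finsetSum _ fun i _ => integrable_finsetSum _ fun j _ => hi i j]
    refine Finset.sum_congr rfl fun i _ => ?_
    rw [integral_finsetSum _ fun j _ => hi i j]
    refine Finset.sum_congr rfl fun j _ => ?_
    rw [integral_const_mul, (gauss_cos U (x i - x j) hU).2]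

lemma AA_prim {ι : Type} (S : Finset ι) (w x : ι → ℝ) (L U : ℝ) (hL : 0 < L) (hU : L / 2 ≤ U)
    (hw : ∀ i ∈ S, 0 ≤ w i) :
    ∫ u in (0 : ℝ)..U, AA S w x u ≤ 3 * Real.pi * GS S w x L * U := by
  have hU0 : 0 < U := by linarith
  obtain ⟨h1, h2⟩ := AA_gauss S w x U hU0
  have h3 : ∫ u in (0 : ℝ)..U, AA S w x u ≤
      ∫ u in (0 : ℝ)..U, 3 * (AA S w x u * Real.exp (-(1 / U ^ 2) * u ^ 2)) := by
    refine intervalIntegral.integral_mono_on hU0.le ((AA_cont S w x).intervalIntegrable _ _)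
      ((h1.const_mul 3).intervalIntegrable) fun u hu => ?_
    have h4 : (1 : ℝ) ≤ 3 * Real.exp (-(1 / U ^ 2) * u ^ 2) := by
      have h5 : Real.exp (-1) ≤ Real.exp (-(1 / U ^ 2) * u ^ 2) := by
        apply Real.exp_le_exp.2
        have : u ^ 2 / U ^ 2 ≤ 1 := by
          rw [div_le_one (by positivity)]
          exact pow_le_pow_left₀ hu.1 hu.2 2
        have e2 : -(1 / U ^ 2) * u ^ 2 = -(u ^ 2 / U ^ 2) := by ring
        rw [e2]
        linarith
      have h6 : (1 : ℝ) ≤ 3 * Real.exp (-1) := by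
        rw [Real.exp_neg]
        have := Real.exp_one_lt_d9
        have h7 : 0 < Real.exp 1 := Real.exp_pos 1
        rw [← div_eq_mul_inv, le_div_iff₀ h7]
        linarith
      linarith
    have h8 := AA_nonneg S w x u
    nlinarith
  have h9 : ∫ u in (0 : ℝ)..U, 3 * (AA S w x u * Real.exp (-(1 / U ^ 2) * u ^ 2)) ≤
      3 * ∫ u : ℝ, AA S w x u * Real.exp (-(1 / U ^ 2) * u ^ 2) := by
    rw [intervalIntegral.integral_const_mul, intervalIntegral.integral_of_le hU0.le]
    have := setIntegral_le_integral (s := Ioc 0 U) h1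
      (Eventually.of_forall fun u => mul_nonneg (AA_nonneg S w x u) (Real.exp_pos _).le)
    linarith
  have h10 : ∑ i ∈ S, ∑ j ∈ S, w i * w j * (Real.sqrt Real.pi * Real.exp (-(x i - x j) ^ 2 / 4)) *
        (Real.sqrt Real.pi * U * Real.exp (-(U * (x i - x j)) ^ 2 / 4)) ≤
        Real.pi * U * GS S w x L := by
    unfold GS
    rw [Finset.mul_sum]
    refine Finset.sum_le_sum fun i hi => ?_
    rw [Finset.mul_sum]
    refine Finset.sum_le_sum fun j hj => ?_
    have hwi := hw i hi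
    have hwj := hw j hj
    have e1 : Real.exp (-(x i - x j) ^ 2 / 4) ≤ 1 := by
      rw [Real.exp_le_one_iff]
      have := sq_nonneg (x i - x j)
      linarith
    have e2 : Real.exp (-(U * (x i - x j)) ^ 2 / 4) ≤ Real.exp (-(L * (x i - x j)) ^ 2 / 16) := by
      apply Real.exp_le_exp.2
      have h11 : (L / 2) ^ 2 ≤ U ^ 2 := pow_le_pow_left₀ (by linarith) hU 2
      have h12 := sq_nonneg (x i - x j)
      have h13 : (L / 2) ^ 2 * (x i - x j) ^ 2 ≤ U ^ 2 * (x i - x j) ^ 2 :=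
        mul_le_mul_of_nonneg_right h11 h12
      nlinarith
    have e3 : Real.sqrt Real.pi * Real.sqrt Real.pi = Real.pi :=
      Real.mul_self_sqrt Real.pi_pos.le
    calc w i * w j * (Real.sqrt Real.pi * Real.exp (-(x i - x j) ^ 2 / 4)) *
        (Real.sqrt Real.pi * U * Real.exp (-(U * (x i - x j)) ^ 2 / 4))
        = (w i * w j) * ((Real.sqrt Real.pi * Real.sqrt Real.pi) * U) *
          (Real.exp (-(x i - x j) ^ 2 / 4) * Real.exp (-(U * (x i - x j)) ^ 2 / 4)) := by ring
      _ ≤ (w i * w j) * (Real.pi * U) * (1 * Real.exp (-(L * (x i - x j)) ^ 2 / 16)) := by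
          rw [e3]
          refine mul_le_mul_of_nonneg_left ?_ ?_
          · exact mul_le_mul e1 e2 (Real.exp_pos _).le zero_le_one
          · have := Real.pi_pos
            positivity
      _ = Real.pi * U * (w i * w j * Real.exp (-(L * (x i - x j)) ^ 2 / 16)) := by ring
  have h14 := h3.trans h9
  rw [h2] at h14
  calc ∫ u in (0 : ℝ)..U, AA S w x u ≤ _ := h14
    _ ≤ 3 * (Real.pi * U * GS S w x L) := by linarith
    _ = 3 * Real.pi * GS S w x L * U := by ring

/-- integration by parts -/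
lemma parts (A : ℝ → ℝ) (hA : Continuous A) (h0 : ∀ u, 0 ≤ A u) (K l : ℝ) (hl : 0 < l)
    (hK : ∀ U, l ≤ U → ∫ u in (0 : ℝ)..U, A u ≤ K * U) (R : ℝ) (hR : l ≤ R) :
    ∫ u in l..R, A u / u ^ 2 ≤ 2 * K / l := by
  set B : ℝ → ℝ := fun U => ∫ u in (0 : ℝ)..U, A u with hB
  have hR0 : 0 < R := by linarith
  have hBd : ∀ u, HasDerivAt B (A u) u := fun u =>
    intervalIntegral.integral_hasDerivAt_right (hA.intervalIntegrable _ _)
      (hA.stronglyMeasurableAtFilter _ _) hA.continuousAt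
  have hBc : Continuous B := continuous_iff_continuousAt.2 fun u => (hBd u).continuousAt
  have hpos : ∀ u ∈ Set.uIcc l R, 0 < u := by
    intro u hu
    rw [Set.uIcc_of_le hR] at hu
    linarith [hu.1]
  have hgd : ∀ u ∈ Set.uIcc l R, HasDerivAt (fun u : ℝ => (u ^ 2)⁻¹) (-(2 / u ^ 3)) u := by
    intro u hu
    have h1 := hpos u hu
    have h2 := (hasDerivAt_pow 2 u).inv (by positivity)
    have h3 : -(((2 : ℕ) : ℝ) * u ^ (2 - 1)) / (u ^ 2) ^ 2 = -(2 / u ^ 3) := by
      push_cast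
      field_simp
    exact h2.congr_deriv h3
  have hgc : ContinuousOn (fun u : ℝ => -(2 / u ^ 3)) (Set.uIcc l R) := by
    refine ContinuousOn.neg (continuousOn_const.div (by fun_prop) fun u hu => ?_)
    have := hpos u hu
    positivity
  have h3 := intervalIntegral.integral_mul_deriv_eq_deriv_mul hgd (fun u _ => hBd u)
    hgc.intervalIntegrable (hA.intervalIntegrable _ _)
  have h4 : ∫ u in l..R, A u / u ^ 2 = ∫ u in l..R, (u ^ 2)⁻¹ * A u := by
    refine intervalIntegral.integral_congr fun u _ => ?_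
    rw [div_eq_mul_inv, mul_comm]
  have hc5 : ContinuousOn (fun u : ℝ => -(2 / u ^ 3) * B u) (Set.uIcc l R) :=
    hgc.mul hBc.continuousOn
  have hc6 : ContinuousOn (fun u : ℝ => -(2 * K) * (u ^ 2)⁻¹) (Set.uIcc l R) := by
    refine continuousOn_const.mul (ContinuousOn.inv₀ (by fun_prop) fun u hu => ?_)
    have := hpos u hu
    positivity
  have h5 : ∫ u in l..R, -(2 * K) * (u ^ 2)⁻¹ ≤ ∫ u in l..R, -(2 / u ^ 3) * B u := by
    refine intervalIntegral.integral_mono_on hR hc6.intervalIntegrable hc5.intervalIntegrable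
      fun u hu => ?_
    have hu0 : 0 < u := by linarith [hu.1]
    have h6 : B u ≤ K * u := hK u hu.1
    have h7 : 2 / u ^ 3 * B u ≤ 2 / u ^ 3 * (K * u) :=
      mul_le_mul_of_nonneg_left h6 (by positivity)
    have h8 : 2 / u ^ 3 * (K * u) = 2 * K * (u ^ 2)⁻¹ := by
      field_simp
    linarith
  have h9 : ∫ u in l..R, -(2 * K) * (u ^ 2)⁻¹ = 2 * K * (R⁻¹ - l⁻¹) := by
    have hd : ∀ u ∈ Set.uIcc l R, HasDerivAt (fun u : ℝ => 2 * K * u⁻¹)
        (-(2 * K) * (u ^ 2)⁻¹) u := by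
      intro u hu
      have h1 := hpos u hu
      have h2 := (hasDerivAt_inv h1.ne').const_mul (2 * K)
      exact h2.congr_deriv (by ring)
    rw [intervalIntegral.integral_eq_sub_of_hasDerivAt hd hc6.intervalIntegrable]
    ring
  have h10 : (0 : ℝ) ≤ B l := intervalIntegral.integral_nonneg hl.le fun u _ => h0 u
  have h11 : (R ^ 2)⁻¹ * B R ≤ K * R⁻¹ := by
    have h6 : B R ≤ K * R := hK R hR
    have h7 : (R ^ 2)⁻¹ * B R ≤ (R ^ 2)⁻¹ * (K * R) := mul_le_mul_of_nonneg_left h6 (by positivity)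
    have h8 : (R ^ 2)⁻¹ * (K * R) = K * R⁻¹ := by field_simp
    linarith
  have h12 : 0 ≤ (l ^ 2)⁻¹ * B l := mul_nonneg (by positivity) h10
  have hK0 : 0 ≤ K := by
    have h6 : B l ≤ K * l := hK l le_rfl
    by_contra hneg
    push Not at hneg
    have : K * l < 0 := mul_neg_of_neg_of_pos hneg hl
    linarith
  have h13 : 0 ≤ K * R⁻¹ := mul_nonneg hK0 (by positivity)
  rw [h4, h3]
  rw [h9] at h5
  have h14 : 2 * K / l = 2 * K * l⁻¹ := by rw [div_eq_mul_inv]
  rw [h14]
  linarith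

lemma gg_cont (t : ℝ) : Continuous fun y => gg y t := by
  unfold gg
  fun_prop

lemma gg_cont' (y : ℝ) : Continuous fun t => gg y t := by
  unfold gg
  fun_prop

lemma gg_deriv (t y : ℝ) : HasDerivAt (fun y => gg y t) (-(y - t) * gg y t) y := by
  unfold gg
  have h1 : HasDerivAt (fun y : ℝ => -(y - t) ^ 2 / 2) (-(y - t)) y := by
    have h2 := (((hasDerivAt_id y).sub_const t).pow 2).neg.div_const 2
    refine h2.congr_deriv ?_
    simp
    ring
  refine h1.exp.congr_deriv ?_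
  ring

lemma J_right (t c d : ℝ) (htc : t ≤ c) (hcd : c ≤ d) :
    ∫ y in c..d, |y - t| * gg y t = gg c t - gg d t := by
  have h1 : ∫ y in c..d, |y - t| * gg y t = ∫ y in c..d, -(-(y - t) * gg y t) := by
    refine intervalIntegral.integral_congr fun y hy => ?_
    rw [Set.uIcc_of_le hcd] at hy
    have : 0 ≤ y - t := by linarith [hy.1]
    simp only [abs_of_nonneg this]
    ring
  rw [h1, intervalIntegral.integral_neg, intervalIntegral.integral_eq_sub_of_hasDerivAt
    (fun y _ => gg_deriv t y)]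
  · ring
  · exact (Continuous.mul (by fun_prop) (gg_cont t)).intervalIntegrable _ _

lemma J_left (t c d : ℝ) (htd : d ≤ t) (hcd : c ≤ d) :
    ∫ y in c..d, |y - t| * gg y t = gg d t - gg c t := by
  have h1 : ∫ y in c..d, |y - t| * gg y t = ∫ y in c..d, (-(y - t) * gg y t) := by
    refine intervalIntegral.integral_congr fun y hy => ?_
    rw [Set.uIcc_of_le hcd] at hy
    have : y - t ≤ 0 := by linarith [hy.2]
    simp only [abs_of_nonpos this]
  rw [h1, intervalIntegral.integral_eq_sub_of_hasDerivAt (fun y _ => gg_deriv t y)]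
  exact (Continuous.mul (by fun_prop) (gg_cont t)).intervalIntegrable _ _

/-- majorant of the density part -/
def WW (a b t : ℝ) : ℝ := gg a t + gg b t + (Icc a b).indicator (fun _ => (1 : ℝ)) t

lemma J_le (a b t : ℝ) (hab : a ≤ b) :
    ∫ y in a..b, |y - t| * gg y t ≤ gg a t + gg b t +
      2 * (Icc a b).indicator (fun _ => (1 : ℝ)) t := by
  have ha := gg_pos a t
  have hb := gg_pos b t
  rcases lt_or_ge t a with h1 | h1
  · rw [J_right t a b h1.le hab, Set.indicator_of_notMem (fun h => absurd h.1 (not_le.2 h1))]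
    linarith
  · rcases lt_or_ge b t with h2 | h2
    · rw [J_left t a b h2.le hab, Set.indicator_of_notMem (fun h => absurd h.2 (not_le.2 h2))]
      linarith
    · rw [Set.indicator_of_mem (show t ∈ Icc a b from ⟨h1, h2⟩)]
      have hi : ∀ c d, IntervalIntegrable (fun y => |y - t| * gg y t) volume c d := fun c d =>
        (Continuous.mul (by fun_prop) (gg_cont t)).intervalIntegrable _ _
      rw [← intervalIntegral.integral_add_adjacent_intervals (hi a t) (hi t b),
        J_left t a t le_rfl h1, J_right t t b le_rfl h2]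
      have : gg t t = 1 := by
        unfold gg
        simp
      linarith

lemma osc (a b t u : ℝ) (hab : a ≤ b) (hu : 0 < u) :
    ‖∫ y in a..b, cexp (I * u * y) * cexp (-((y : ℂ) - t) ^ 2 / 2)‖ ≤ 2 / u * WW a b t := by
  have hIu : (I * (u : ℂ)) ≠ 0 := mul_ne_zero I_ne_zero (by exact_mod_cast hu.ne')
  have hE : ∀ y : ℝ, HasDerivAt (fun y : ℝ => cexp (I * u * y) / (I * u)) (cexp (I * u * y)) y := by
    intro y
    have h1 : HasDerivAt (fun y : ℝ => I * (u : ℂ) * (y : ℂ)) (I * u) y := by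
      have := (Complex.ofRealCLM.hasDerivAt (x := y)).const_mul (I * (u : ℂ))
      simpa using this
    have h2 := h1.cexp.div_const (I * (u : ℂ))
    exact h2.congr_deriv (mul_div_cancel_right₀ _ hIu)
  have hG : ∀ y : ℝ, HasDerivAt (fun y : ℝ => (gg y t : ℂ)) ((-(y - t) * gg y t : ℝ) : ℂ) y :=
    fun y => (gg_deriv t y).ofReal_comp
  have hEn : ∀ y : ℝ, ‖cexp (I * u * y)‖ = 1 := by
    intro y
    rw [show I * (u : ℂ) * y = ((u * y : ℝ) : ℂ) * I by push_cast; ring,
      Complex.norm_exp_ofReal_mul_I]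
  have hIun : ‖I * (u : ℂ)‖ = u := by
    rw [norm_mul, Complex.norm_I, one_mul, Complex.norm_real, Real.norm_eq_abs, abs_of_pos hu]
  have hc1 : Continuous fun y : ℝ => ((-(y - t) * gg y t : ℝ) : ℂ) :=
    Complex.continuous_ofReal.comp (Continuous.mul (by fun_prop) (gg_cont t))
  have hc2 : Continuous fun y : ℝ => cexp (I * u * y) := by fun_prop
  have h3 := intervalIntegral.integral_mul_deriv_eq_deriv_mul (a := a) (b := b)
    (fun y _ => hG y) (fun y _ => hE y)
    (hc1.intervalIntegrable _ _) (hc2.intervalIntegrable _ _)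
  have h4 : ∫ y in a..b, cexp (I * u * y) * cexp (-((y : ℂ) - t) ^ 2 / 2) =
      ∫ y in a..b, (gg y t : ℂ) * cexp (I * u * y) := by
    refine intervalIntegral.integral_congr fun y _ => ?_
    rw [cexp_gg, mul_comm]
  rw [h4, h3]
  have hnb : ∀ c : ℝ, ‖(gg c t : ℂ) * (cexp (I * u * c) / (I * u))‖ = gg c t / u := by
    intro c
    rw [norm_mul, norm_div, hEn, hIun, Complex.norm_real, Real.norm_eq_abs,
      abs_of_pos (gg_pos c t)]
    ring
  have h5 : ‖∫ y in a..b, ((-(y - t) * gg y t : ℝ) : ℂ) * (cexp (I * u * y) / (I * u))‖ ≤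
      (∫ y in a..b, |y - t| * gg y t) / u := by
    refine (intervalIntegral.norm_integral_le_integral_norm hab).trans (le_of_eq ?_)
    rw [← intervalIntegral.integral_div]
    refine intervalIntegral.integral_congr fun y _ => ?_
    rw [norm_mul, norm_div, hEn, hIun, Complex.norm_real, Real.norm_eq_abs, abs_mul, abs_neg,
      abs_of_pos (gg_pos y t)]
    ring
  have h6 := J_le a b t hab
  have h7 : (∫ y in a..b, |y - t| * gg y t) / u ≤ (gg a t + gg b t +
      2 * (Icc a b).indicator (fun _ => (1 : ℝ)) t) / u := by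
    exact div_le_div_of_nonneg_right h6 hu.le
  refine (norm_sub_le _ _).trans ((add_le_add (norm_sub_le _ _) h5).trans ?_)
  rw [hnb, hnb]
  refine (add_le_add_right h7 _).trans (le_of_eq ?_)
  unfold WW
  ring

lemma WW_nonneg (a b t : ℝ) : 0 ≤ WW a b t := by
  unfold WW
  have h1 := gg_pos a t
  have h2 := gg_pos b t
  have h3 : 0 ≤ (Icc a b).indicator (fun _ => (1 : ℝ)) t :=
    Set.indicator_nonneg (fun _ _ => zero_le_one) _
  linarith

/-- integrable majorant of the square -/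
def QQ (a b t : ℝ) : ℝ :=
  3 * (gg a t * gg a t + gg b t * gg b t + (Icc a b).indicator (fun _ => (1 : ℝ)) t)

lemma WW_sq (a b t : ℝ) : WW a b t ^ 2 ≤ QQ a b t := by
  unfold WW QQ
  have h3 : (Icc a b).indicator (fun _ => (1 : ℝ)) t * (Icc a b).indicator (fun _ => (1 : ℝ)) t =
      (Icc a b).indicator (fun _ => (1 : ℝ)) t := by
    by_cases h : t ∈ Icc a b
    · rw [Set.indicator_of_mem h]
      norm_num
    · rw [Set.indicator_of_notMem h]
      norm_num
  nlinarith [sq_nonneg (gg a t - gg b t),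
    sq_nonneg (gg a t - (Icc a b).indicator (fun _ => (1 : ℝ)) t),
    sq_nonneg (gg b t - (Icc a b).indicator (fun _ => (1 : ℝ)) t)]

lemma QQ_int (a b : ℝ) (hab : a ≤ b) : Integrable (QQ a b) ∧
    ∫ t, QQ a b t = 3 * (2 * Real.sqrt Real.pi + (b - a)) := by
  have h1 := int_gg a a
  have h2 := int_gg b b
  have h3 : Integrable ((Icc a b).indicator fun _ : ℝ => (1 : ℝ)) := by
    rw [integrable_indicator_iff measurableSet_Icc]
    exact integrableOn_const (by simp)
  have h4 : ∫ t, (Icc a b).indicator (fun _ : ℝ => (1 : ℝ)) t = b - a := by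
    rw [integral_indicator measurableSet_Icc]
    simp [hab]
  have h12 : Integrable (fun t => gg a t * gg a t + gg b t * gg b t) := h1.1.add h2.1
  unfold QQ
  constructor
  · exact (h12.add h3).const_mul 3
  · rw [integral_const_mul, integral_add h12 h3, integral_add h1.1 h2.1, h1.2, h2.2, h4]
    simp
    ring

lemma Vf_sq {ι : Type} (S : Finset ι) (w x : ι → ℝ) (lam a b u : ℝ) (hab : a ≤ b) (hu : 0 < u)
    (hlam : 0 ≤ lam) :
    ∫ t : ℝ, ‖Vf S w x lam a b u t‖ ^ 2 ≤ 2 * AA S w x u +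
      24 * lam ^ 2 / u ^ 2 * (2 * Real.sqrt Real.pi + (b - a)) := by
  have h1 := V1_int S w x u
  have h2 := QQ_int a b hab
  have hpt : ∀ t, ‖Vf S w x lam a b u t‖ ^ 2 ≤
      2 * ‖V1 S w x u t‖ ^ 2 + 8 * lam ^ 2 / u ^ 2 * QQ a b t := by
    intro t
    have h3 := osc a b t u hab hu
    have h4 := WW_sq a b t
    have h5 := WW_nonneg a b t
    set z := ∫ y in a..b, cexp (I * u * y) * cexp (-((y : ℂ) - t) ^ 2 / 2) with hz
    have h6 : ‖Vf S w x lam a b u t‖ ≤ ‖V1 S w x u t‖ + ‖(lam : ℂ) * z‖ := norm_sub_le _ _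
    have h7 : ‖(lam : ℂ) * z‖ ≤ lam * (2 / u * WW a b t) := by
      rw [norm_mul, Complex.norm_real, Real.norm_eq_abs, abs_of_nonneg hlam]
      exact mul_le_mul_of_nonneg_left h3 hlam
    have h8 : ‖Vf S w x lam a b u t‖ ≤ ‖V1 S w x u t‖ + lam * (2 / u * WW a b t) := by linarith
    have h9 : ‖Vf S w x lam a b u t‖ ^ 2 ≤ (‖V1 S w x u t‖ + lam * (2 / u * WW a b t)) ^ 2 :=
      pow_le_pow_left₀ (norm_nonneg _) h8 2
    have h10 : (‖V1 S w x u t‖ + lam * (2 / u * WW a b t)) ^ 2 ≤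
        2 * ‖V1 S w x u t‖ ^ 2 + 2 * (lam * (2 / u * WW a b t)) ^ 2 := by
      nlinarith [sq_nonneg (‖V1 S w x u t‖ - lam * (2 / u * WW a b t))]
    have h11 : 2 * (lam * (2 / u * WW a b t)) ^ 2 = 8 * lam ^ 2 / u ^ 2 * WW a b t ^ 2 := by
      field_simp
      ring
    have h12 : 8 * lam ^ 2 / u ^ 2 * WW a b t ^ 2 ≤ 8 * lam ^ 2 / u ^ 2 * QQ a b t :=
      mul_le_mul_of_nonneg_left h4 (by positivity)
    linarith
  have h13 : Integrable (fun t => 2 * ‖V1 S w x u t‖ ^ 2 + 8 * lam ^ 2 / u ^ 2 * QQ a b t) :=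
    (h1.1.const_mul 2).add (h2.1.const_mul _)
  have h14 : ∫ t : ℝ, ‖Vf S w x lam a b u t‖ ^ 2 ≤
      ∫ t : ℝ, (2 * ‖V1 S w x u t‖ ^ 2 + 8 * lam ^ 2 / u ^ 2 * QQ a b t) :=
    integral_mono_of_nonneg (Eventually.of_forall fun t => by positivity) h13
      (Eventually.of_forall hpt)
  rw [integral_add (h1.1.const_mul 2) (h2.1.const_mul _), integral_const_mul, integral_const_mul,
    h1.2, h2.2] at h14
  refine h14.trans (le_of_eq ?_)
  ring

/-- package HI -/
theorem t_HI : S_HI := by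
  refine ⟨128, by norm_num, ?_⟩
  intro ι S w x lam a b T L C1 hL hT ha ha' hb hb' hlam hlam' hC1 hw hG r hr hru
  have hL0 : 0 < L := by linarith
  have hT0 : 0 < T := by linarith
  have hl : 0 < L / 2 := by linarith
  have hab : a ≤ b := by linarith
  set g : ℝ → ℝ := fun u => |r u| * ∫ t : ℝ, ‖Vf S w x lam a b u t‖ ^ 2 with hg
  have hgoal0 : 0 ≤ 128 * C1 * T := by positivity
  by_cases hint : IntegrableOn g (Ioi (L / 2))
  swap
  · rw [integral_undef hint]
    exact hgoal0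
  have htend := intervalIntegral_tendsto_integral_Ioi (L / 2) hint tendsto_id
  refine le_of_tendsto htend ((eventually_ge_atTop (L / 2)).mono fun R hR => ?_)
  simp only [id]
  have hpos : ∀ u ∈ Set.uIcc (L / 2) R, 0 < u := by
    intro u hu
    rw [Set.uIcc_of_le hR] at hu
    linarith [hu.1]
  set M : ℝ := 48 * L ^ 2 * T with hM
  have hM0 : 0 ≤ M := by positivity
  have hAc : ContinuousOn (fun u : ℝ => 2 * (AA S w x u / u ^ 2)) (Set.uIcc (L / 2) R) := by
    refine continuousOn_const.mul ((AA_cont S w x).continuousOn.div (by fun_prop) fun u hu => ?_)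
    have := hpos u hu
    positivity
  have hBc : ContinuousOn (fun u : ℝ => M / u ^ 4) (Set.uIcc (L / 2) R) := by
    refine continuousOn_const.div (by fun_prop) fun u hu => ?_
    have := hpos u hu
    positivity
  have hsq : Real.sqrt Real.pi ≤ 2 := by
    rw [Real.sqrt_le_left (by norm_num)]
    have := Real.pi_le_four
    norm_num
    linarith
  have h1 : ∫ u in (L / 2)..R, g u ≤ ∫ u in (L / 2)..R, (2 * (AA S w x u / u ^ 2) + M / u ^ 4) := by
    refine intervalIntegral.integral_mono_on hR ?_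
      ((hAc.add hBc).intervalIntegrable) fun u hu => ?_
    · rw [intervalIntegrable_iff_integrableOn_Ioc_of_le hR]
      exact hint.mono_set Ioc_subset_Ioi_self
    · have hu0 : 0 < u := by linarith [hu.1]
      have h2 := Vf_sq S w x lam a b u hab hu0 hlam
      have h3 : 24 * lam ^ 2 / u ^ 2 * (2 * Real.sqrt Real.pi + (b - a)) ≤ M / u ^ 2 := by
        have h4 : 2 * Real.sqrt Real.pi + (b - a) ≤ 2 * T := by linarith
        have h5 : lam ^ 2 ≤ L ^ 2 := pow_le_pow_left₀ hlam hlam' 2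
        have h6 : 24 * lam ^ 2 * (2 * Real.sqrt Real.pi + (b - a)) ≤ 24 * L ^ 2 * (2 * T) := by
          refine mul_le_mul (by linarith) h4 ?_ (by positivity)
          have := Real.sqrt_nonneg Real.pi
          linarith
        have h7 : 24 * lam ^ 2 / u ^ 2 * (2 * Real.sqrt Real.pi + (b - a)) =
          24 * lam ^ 2 * (2 * Real.sqrt Real.pi + (b - a)) / u ^ 2 := by ring
        rw [h7, hM]
        exact div_le_div_of_nonneg_right (by linarith) (by positivity)
      have h8 : |r u| ≤ 1 / u ^ 2 := by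
        rw [le_div_iff₀ (by positivity)]
        exact hru u
      have h9 : 0 ≤ ∫ t : ℝ, ‖Vf S w x lam a b u t‖ ^ 2 :=
        integral_nonneg fun t => by positivity
      have h10 : |r u| * (∫ t : ℝ, ‖Vf S w x lam a b u t‖ ^ 2) ≤
          1 / u ^ 2 * (2 * AA S w x u + M / u ^ 2) :=
        mul_le_mul h8 (by linarith) h9 (by positivity)
      refine h10.trans (le_of_eq ?_)
      field_simp
  have h2 : ∫ u in (L / 2)..R, (2 * (AA S w x u / u ^ 2) + M / u ^ 4) =
      2 * (∫ u in (L / 2)..R, AA S w x u / u ^ 2) + ∫ u in (L / 2)..R, M / u ^ 4 := by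
    rw [intervalIntegral.integral_add hAc.intervalIntegrable hBc.intervalIntegrable,
      intervalIntegral.integral_const_mul]
  have h3 : ∫ u in (L / 2)..R, AA S w x u / u ^ 2 ≤ 2 * (3 * Real.pi * GS S w x L) / (L / 2) :=
    parts (AA S w x) (AA_cont S w x) (AA_nonneg S w x) _ (L / 2) hl
      (fun U hU => AA_prim S w x L U hL0 hU hw) R hR
  have h4 : 2 * (3 * Real.pi * GS S w x L) / (L / 2) ≤ 48 * C1 * T := by
    rw [div_le_iff₀ hl]
    have h5 : GS S w x L ≤ C1 * (T * L) := hG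
    have h6 : Real.pi * GS S w x L ≤ 4 * (C1 * (T * L)) := by
      have h7 : Real.pi * GS S w x L ≤ Real.pi * (C1 * (T * L)) :=
        mul_le_mul_of_nonneg_left h5 Real.pi_pos.le
      have h8 : Real.pi * (C1 * (T * L)) ≤ 4 * (C1 * (T * L)) :=
        mul_le_mul_of_nonneg_right Real.pi_le_four (by positivity)
      linarith
    nlinarith
  have h5 : ∫ u in (L / 2)..R, M / u ^ 4 ≤ 32 * T := by
    have hd : ∀ u ∈ Set.uIcc (L / 2) R, HasDerivAt (fun u : ℝ => -(M / 3) * (u ^ 3)⁻¹)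
        (M / u ^ 4) u := by
      intro u hu
      have h6 := hpos u hu
      have h7 := ((hasDerivAt_pow 3 u).inv (by positivity)).const_mul (-(M / 3))
      have h8 : -(M / 3) * (-(((3 : ℕ) : ℝ) * u ^ (3 - 1)) / (u ^ 3) ^ 2) = M / u ^ 4 := by
        push_cast
        field_simp
      exact h7.congr_deriv h8
    rw [intervalIntegral.integral_eq_sub_of_hasDerivAt hd hBc.intervalIntegrable]
    have hR0 : 0 < R := by linarith
    have h9 : 0 ≤ M / 3 * (R ^ 3)⁻¹ := by positivity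
    have h10 : M / 3 * ((L / 2) ^ 3)⁻¹ ≤ 32 * T := by
      rw [hM]
      have h11 : 48 * L ^ 2 * T / 3 * ((L / 2) ^ 3)⁻¹ = 128 * T / L := by
        field_simp
        ring
      rw [h11, div_le_iff₀ hL0]
      nlinarith
    linarith
  have h6 : 32 * T ≤ 32 * C1 * T := by nlinarith
  linarith

end

end Pool.Agent.U114.MV.HI
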